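import Mathlib
import Pool.Agent.Q136.ArrWeak

/-!
MP_1d1228_co: for which sets `B` of levels is weak `(ℕ₊ ∖ B)`-compatibility strictly weaker than
`(ℕ₊ ∖ B)`-compatibility?  Answer: exactly for those with `1 ∈ B ≠ ℕ₊`.
-/

open MeasureTheory Measure ProbabilityTheory Set
open Pool.Agent.Q136.Arr
open scoped ENNReal

namespace Pool.Agent.Results.MP_1d1228_co.WeakVersusStrong

/-- The language with a single `k`-ary predicate. -/
def oneLang (k : ℕ) (hk : 0 < k) : Lang := ⟨Unit, inferInstance, fun _ => k, fun _ => hk⟩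

/-- the full set -/
def fullSet (k : ℕ) (hk : 0 < k) : NF (Fin k) := ⟨Finset.univ, ⟨⟨0, hk⟩, Finset.mem_univ _⟩⟩

/-- Vandermonde determinant -/
noncomputable def vd {k : ℕ} (v : Fin k → ℝ) : ℝ := (Matrix.vandermonde v).det

lemma vd_perm {k : ℕ} (v : Fin k → ℝ) (σ : Equiv.Perm (Fin k)) :
    vd (fun i => v (σ i)) = (Equiv.Perm.sign σ : ℤ) * vd v := by
  unfold vd
  rw [← Matrix.det_permute σ (Matrix.vandermonde v)]
  rfl

lemma vd_ne_zero {k : ℕ} {v : Fin k → ℝ} (h : Function.Injective v) : vd v ≠ 0 :=
  Matrix.det_vandermonde_ne_zero_iff.2 h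

lemma vd_pos {k : ℕ} {v : Fin k → ℝ} (h : StrictMono v) : 0 < vd v := by
  unfold vd
  rw [Matrix.det_vandermonde]
  refine Finset.prod_pos fun i _ => Finset.prod_pos fun j hj => ?_
  have : i < j := by simpa using hj
  exact sub_pos.2 (h this)

lemma measurable_vd {k : ℕ} {Ω : Type*} [MeasurableSpace Ω] {f : Ω → Fin k → ℝ}
    (hf : ∀ i, Measurable (fun ω => f ω i)) : Measurable (fun ω => vd (f ω)) := by
  unfold vd
  simp only [Matrix.det_vandermonde]
  refine Finset.measurable_prod _ fun i _ => Finset.measurable_prod _ fun j _ => ?_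
  exact (hf j).sub (hf i)

/-- the fair coin -/
noncomputable def coin : Measure Bool :=
  (2⁻¹ : ℝ≥0∞) • Measure.dirac true + (2⁻¹ : ℝ≥0∞) • Measure.dirac false

instance : IsProbabilityMeasure coin := ⟨by
  unfold coin
  simp [ENNReal.inv_two_add_inv_two]⟩

lemma coin_map_xor (b : Bool) : coin.map (fun z => xor z b) = coin := by
  cases b
  · have : (fun z : Bool => xor z false) = id := by
      funext z; simp
    rw [this, Measure.map_id]
  · have : (fun z : Bool => xor z true) = not := by
      funext z; simp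
    rw [this]
    unfold coin
    rw [Measure.map_add _ _ (measurable_of_countable _), Measure.map_smul, Measure.map_smul,
      Measure.map_dirac' (measurable_of_countable _), Measure.map_dirac' (measurable_of_countable _)]
    simp only [Bool.not_true, Bool.not_false]
    exact add_comm _ _

section construction

variable {X : Type} [MeasurableSpace X] (k : ℕ) (hk : 0 < k) (c : X → Bool) (e : X → ℝ)

/-- membership in the peon of the example -/
def inPeon (x : NF (Fin k) → X) : Prop :=
  Xor (c (x (fullSet k hk)) = true) (0 < vd (fun i => e (x (sing i))))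

lemma measurableSet_inPeon (hc : Measurable c) (he : Measurable e) :
    MeasurableSet {x | inPeon k hk c e x} := by
  have h1 : MeasurableSet {x : NF (Fin k) → X | c (x (fullSet k hk)) = true} := by
    have : Measurable (fun x : NF (Fin k) → X => c (x (fullSet k hk))) :=
      hc.comp (measurable_pi_apply _)
    exact this (measurableSet_singleton true)
  have h2 : MeasurableSet {x : NF (Fin k) → X | 0 < vd (fun i => e (x (sing i)))} := by
    refine measurableSet_lt measurable_const ?_
    exact measurable_vd fun i => he.comp (measurable_pi_apply _)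
  have h3 : {x | inPeon k hk c e x} = ({x | c (x (fullSet k hk)) = true} \
      {x | 0 < vd (fun i => e (x (sing i)))}) ∪ ({x | 0 < vd (fun i => e (x (sing i)))} \
      {x | c (x (fullSet k hk)) = true}) := by
    ext x
    exact Iff.rfl
  rw [h3]
  exact (h1.diff h2).union (h2.diff h1)

/-- the example -/
def exEucl (hc : Measurable c) (he : Measurable e) : Eucl (oneLang k hk) X :=
  ⟨fun _ => {x | inPeon k hk c e x}, fun _ => measurableSet_inPeon k hk c e hc he⟩

/-- the atom of a tuple -/
def at' (α : Fin k ↪ ℕ) : (oneLang k hk).Atom ℕ := ⟨(), α⟩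

/-- the range of a tuple -/
def rng (α : Fin k ↪ ℕ) : NF ℕ := NF.map α (fullSet k hk)

lemma arr_at (hc : Measurable c) (he : Measurable e) (θ : NF ℕ → X) (α : Fin k ↪ ℕ) :
    (exEucl k hk c e hc he).arr θ (at' k hk α) ↔
      Xor (c (θ (rng k hk α)) = true) (0 < vd (fun i => e (θ (sing (α i))))) := by
  have h1 : ∀ i, NF.map α (sing i) = sing (α i) := fun i => map_sing α i
  change Xor (c (θ (NF.map α (fullSet k hk))) = true)
    (0 < vd (fun i => e (θ (NF.map α (sing i))))) ↔ _
  simp only [h1]
  exact Iff.rfl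

lemma rng_perm (σ : Equiv.Perm (Fin k)) (α : Fin k ↪ ℕ) :
    rng k hk (σ.toEmbedding.trans α) = rng k hk α := by
  apply Subtype.ext
  change (Finset.univ.map (σ.toEmbedding.trans α)) = Finset.univ.map α
  rw [← Finset.map_map]
  congr 1
  exact Finset.map_univ_equiv σ

end construction

section independence

variable {X : Type} [MeasurableSpace X] (μ : Measure X) [IsProbabilityMeasure μ]

/-- the level one variables are almost surely pairwise different -/
lemma ae_level_one_injective [StandardBorelSpace X] [NullSingletonClass μ] {e : X → ℝ}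
    (he : Measurable e) (hinj : Function.Injective e) :
    ∀ᵐ θ ∂(iid μ), ∀ i j : ℕ, i ≠ j → e (θ (sing i)) ≠ e (θ (sing j)) := by
  filter_upwards [ae_sums_ne μ he hinj] with θ hθ i j hij
  have h := hθ (sing i) (sing j) (fun h => hij (sing_injective h))
  simpa [sing] using h

/-- sets of size `k` -/
abbrev KS (k : ℕ) : Type := {A : NF ℕ // A.1.card = k}

variable (k : ℕ) (hk2 : 2 ≤ k) (c : X → Bool) (e : X → ℝ)

open Classical in
/-- the bit of a `k`-set -/
noncomputable def bit (θ : NF ℕ → X) (A : KS k) : Bool :=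
  xor (c (θ A.1)) (decide (0 < vd (fun i => e (θ (sing (A.1.1.orderEmbOfFin A.2 i))))))

open Classical in
lemma measurable_bit (hc : Measurable c) (he : Measurable e) :
    Measurable (bit k c e) := by
  refine measurable_pi_lambda _ fun A => ?_
  have h1 : Measurable (fun θ : NF ℕ → X => c (θ A.1)) := hc.comp (measurable_pi_apply _)
  have h2 : Measurable (fun θ : NF ℕ → X =>
      decide (0 < vd (fun i => e (θ (sing (A.1.1.orderEmbOfFin A.2 i)))))) := by
    refine measurable_to_bool ?_
    have h3 : (fun θ : NF ℕ → X =>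
      decide (0 < vd (fun i => e (θ (sing (A.1.1.orderEmbOfFin A.2 i)))))) ⁻¹' {true}
      = {θ | 0 < vd (fun i => e (θ (sing (A.1.1.orderEmbOfFin A.2 i))))} := by
      ext θ
      simp
    rw [h3]
    exact measurableSet_lt measurable_const
      (measurable_vd fun i => he.comp (measurable_pi_apply _))
  have h4 : Measurable (fun p : Bool × Bool => xor p.1 p.2) := measurable_of_countable _
  exact h4.comp (h1.prodMk h2)

include hk2 in
open Classical in
lemma bit_indep (hc : Measurable c) (he : Measurable e) (hcoin : μ.map c = coin) :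
    IndepFun (bit k c e) (fun θ (A : {A : NF ℕ | A.1.card ≠ k}) => θ A) (iid μ) := by
  obtain ⟨S, hS⟩ : ∃ S : Set (NF ℕ), S = {A : NF ℕ | A.1.card ≠ k} := ⟨_, rfl⟩
  rw [← hS]
  have hsing : ∀ i : ℕ, sing i ∈ S := by
    intro i
    rw [hS]
    change (sing i).1.card ≠ k
    have : (sing i).1.card = 1 := Finset.card_singleton i
    rw [this]; omega
  have hKS : ∀ A : KS k, A.1 ∉ S := by
    intro A hA
    rw [hS] at hA
    exact hA A.2
  have hrm : Measurable (fun (θ : NF ℕ → X) (A : S) => θ A) := by fun_prop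
  have hbm := measurable_bit k c e hc he
  -- key computation
  have key : ∀ (E : Set (KS k → Bool)) (F : Set (S → X)), MeasurableSet E → MeasurableSet F →
      iid μ (bit k c e ⁻¹' E ∩ (fun (θ : NF ℕ → X) (A : S) => θ A) ⁻¹' F)
        = infinitePi (fun _ : KS k => coin) E * infinitePi (fun _ : S => μ) F := by
    intro E F hE hF
    have hm : MeasurableSet (bit k c e ⁻¹' E ∩ (fun (θ : NF ℕ → X) (A : S) => θ A) ⁻¹' F) :=
      (hbm hE).inter (hrm hF)
    unfold iid
    conv_lhs => rw [← map_glue μ S]
    rw [Measure.map_apply (measurable_glue S) hm, Measure.prod_apply ((measurable_glue S) hm)]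
    have h1 : ∀ v : S → X, infinitePi (fun _ : NF ℕ => μ) (Prod.mk v ⁻¹'
        ((fun p : (S → X) × (NF ℕ → X) => glue S p.1 p.2) ⁻¹'
          (bit k c e ⁻¹' E ∩ (fun (θ : NF ℕ → X) (A : S) => θ A) ⁻¹' F)))
        = F.indicator (fun _ => infinitePi (fun _ : KS k => coin) E) v := by
      intro v
      have hr : ∀ x : NF ℕ → X, (fun (A : S) => glue S v x A) = v := by
        intro x; funext A; exact glue_mem S v x A.2
      obtain ⟨b, hb⟩ : ∃ b : KS k → Bool, b = fun A => decide (0 < vd (fun i =>
          e (v ⟨sing (A.1.1.orderEmbOfFin A.2 i), hsing _⟩))) := ⟨_, rfl⟩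
      have hbit : ∀ x : NF ℕ → X, bit k c e (glue S v x) = fun A => xor (c (x A.1)) (b A) := by
        intro x
        funext A
        unfold bit
        rw [glue_notMem S v x (hKS A), hb]
        congr 2
        simp only [glue_mem S v x (hsing _)]
      by_cases hv : v ∈ F
      · rw [Set.indicator_of_mem hv]
        have h2 : Prod.mk v ⁻¹' ((fun p : (S → X) × (NF ℕ → X) => glue S p.1 p.2) ⁻¹'
          (bit k c e ⁻¹' E ∩ (fun (θ : NF ℕ → X) (A : S) => θ A) ⁻¹' F))
          = (fun x : NF ℕ → X => (fun A : KS k => x A.1)) ⁻¹'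
            ((fun y : KS k → X => (fun A => xor (c (y A)) (b A))) ⁻¹' E) := by
          ext x
          change (bit k c e (glue S v x) ∈ E ∧ (fun (A : S) => glue S v x A) ∈ F) ↔
            (fun A : KS k => xor (c (x A.1)) (b A)) ∈ E
          rw [hr, hbit]
          exact ⟨fun h => h.1, fun h => ⟨h, hv⟩⟩
        have hm1 : Measurable (fun x : NF ℕ → X => (fun A : KS k => x A.1)) := by fun_prop
        have hm3 : ∀ b' : Bool, Measurable (fun z : X => xor (c z) b') := fun b' =>
          (measurable_of_countable (fun z : Bool => xor z b')).comp hc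
        have hm2 : Measurable (fun y : KS k → X => (fun A => xor (c (y A)) (b A))) := by
          refine measurable_pi_lambda _ fun A => (hm3 (b A)).comp (measurable_pi_apply _)
        rw [h2, ← Measure.map_apply hm1 (hm2 hE), Measure.map_infinitePi_infinitePi_of_inj
          (P := fun _ : NF ℕ => μ) (f := fun A : KS k => A.1) Subtype.val_injective,
          ← Measure.map_apply hm2 hE, infinitePi_map_pi (fun _ : KS k => μ)
            (f := fun A z => xor (c z) (b A)) (fun A => hm3 (b A))]
        have h5 : ∀ A : KS k, μ.map (fun z => xor (c z) (b A)) = coin := by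
          intro A
          rw [← coin_map_xor (b A), ← hcoin, Measure.map_map (measurable_of_countable _) hc]
          rfl
        simp only [h5]
      · rw [Set.indicator_of_notMem hv]
        have h2 : Prod.mk v ⁻¹' ((fun p : (S → X) × (NF ℕ → X) => glue S p.1 p.2) ⁻¹'
          (bit k c e ⁻¹' E ∩ (fun (θ : NF ℕ → X) (A : S) => θ A) ⁻¹' F)) = ∅ := by
          ext x
          simp only [mem_empty_iff_false, iff_false]
          intro h
          have h3 : (fun (A : S) => glue S v x A) ∈ F := h.2
          rw [hr] at h3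
          exact hv h3
        rw [h2, measure_empty]
    rw [lintegral_congr h1, lintegral_indicator hF, setLIntegral_const]
  rw [indepFun_iff_measure_inter_preimage_eq_mul]
  intro E F hE hF
  have h1 := key E F hE hF
  have h2 := key E univ hE MeasurableSet.univ
  have h3 := key univ F MeasurableSet.univ hF
  rw [preimage_univ, inter_univ, measure_univ, mul_one] at h2
  rw [preimage_univ, univ_inter, measure_univ, one_mul] at h3
  rw [h1, h2, h3]

/-- the reference sign of a tuple -/
noncomputable def refSign (α : Fin k ↪ ℕ) : ℝ := vd (fun i => (α i : ℝ))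

lemma rng_card (hk : 0 < k) (α : Fin k ↪ ℕ) : (rng k hk α).1.card = k := by
  change (Finset.univ.map α).card = k
  simp

open Classical in
lemma arr_eq_of_bit (hk : 0 < k) (hc : Measurable c) (he : Measurable e) (θ : NF ℕ → X)
    (hθ : ∀ i j : ℕ, i ≠ j → e (θ (sing i)) ≠ e (θ (sing j))) (α : Fin k ↪ ℕ) :
    (exEucl k hk c e hc he).arr θ (at' k hk α) ↔
      xor (bit k c e θ ⟨rng k hk α, rng_card k hk α⟩) (decide (refSign k α < 0)) = true := by
  rw [arr_at]
  obtain ⟨A, hA⟩ : ∃ A : KS k, A = ⟨rng k hk α, rng_card k hk α⟩ := ⟨_, rfl⟩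
  rw [← hA]
  have hrng : rng k hk α = A.1 := by rw [hA]
  rw [hrng]
  -- the permutation
  have hmem : ∀ i, α i ∈ A.1.1 := by
    intro i
    rw [← hrng]
    exact Finset.mem_map_of_mem α (Finset.mem_univ i)
  obtain ⟨f, hf⟩ : ∃ f : Fin k → Fin k, ∀ i, A.1.1.orderEmbOfFin A.2 (f i) = α i := by
    refine ⟨fun i => (A.1.1.orderIsoOfFin A.2).symm ⟨α i, hmem i⟩, fun i => ?_⟩
    have := (A.1.1.orderIsoOfFin A.2).apply_symm_apply ⟨α i, hmem i⟩
    exact congrArg Subtype.val this
  have hfinj : Function.Injective f := by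
    intro i j hij
    apply α.injective
    rw [← hf i, ← hf j, hij]
  obtain ⟨σ, hσ⟩ : ∃ σ : Equiv.Perm (Fin k), ∀ i, σ i = f i :=
    ⟨Equiv.ofBijective f (Finite.injective_iff_bijective.1 hfinj), fun i => rfl⟩
  have h1 : vd (fun i => e (θ (sing (α i))))
      = (Equiv.Perm.sign σ : ℤ) * vd (fun i => e (θ (sing (A.1.1.orderEmbOfFin A.2 i)))) := by
    rw [← vd_perm]
    congr 1
    funext i
    rw [hσ, hf]
  have h2 : refSign k α = (Equiv.Perm.sign σ : ℤ) *
      vd (fun i => ((A.1.1.orderEmbOfFin A.2 i : ℕ) : ℝ)) := by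
    unfold refSign
    rw [← vd_perm]
    congr 1
    funext i
    rw [hσ, hf]
  have h3 : 0 < vd (fun i => ((A.1.1.orderEmbOfFin A.2 i : ℕ) : ℝ)) := by
    refine vd_pos fun i j hij => ?_
    exact_mod_cast (A.1.1.orderEmbOfFin A.2).strictMono hij
  have h4 : vd (fun i => e (θ (sing (A.1.1.orderEmbOfFin A.2 i)))) ≠ 0 := by
    refine vd_ne_zero fun i j hij => ?_
    by_contra hne
    exact hθ _ _ (fun h => hne ((A.1.1.orderEmbOfFin A.2).injective h)) hij
  unfold bit
  rw [h1, h2]
  generalize vd (fun i => e (θ (sing (A.1.1.orderEmbOfFin A.2 i)))) = p at h4 ⊢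
  generalize vd (fun i => ((A.1.1.orderEmbOfFin A.2 i : ℕ) : ℝ)) = q at h3 ⊢
  generalize c (θ A.1) = b
  rcases Int.units_eq_one_or (Equiv.Perm.sign σ) with hs | hs
  · rw [hs]
    have h5 : ¬ (((1 : ℤˣ) : ℤ) : ℝ) * q < 0 := by
      push_cast; linarith
    have h6 : (0 < (((1 : ℤˣ) : ℤ) : ℝ) * p) ↔ 0 < p := by
      push_cast; rw [one_mul]
    rw [h6, decide_eq_false h5]
    by_cases hp : 0 < p
    · cases b <;> simp [hp, Xor]
    · cases b <;> simp [hp, Xor]
  · rw [hs]
    have h5 : (((-1 : ℤˣ) : ℤ) : ℝ) * q < 0 := by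
      push_cast; linarith
    have h6 : (0 < (((-1 : ℤˣ) : ℤ) : ℝ) * p) ↔ ¬ 0 < p := by
      push_cast
      constructor
      · intro h h'; linarith
      · intro h
        have : p < 0 := lt_of_le_of_ne (not_lt.1 h) h4
        linarith
    rw [h6, decide_eq_true h5]
    by_cases hp : 0 < p
    · cases b <;> simp [hp, Xor]
    · cases b <;> simp [hp, Xor]

include hk2 in
open Classical in
lemma arr_indep [StandardBorelSpace X] [NullSingletonClass μ] (hk : 0 < k) (hc : Measurable c)
    (he : Measurable e) (hinj : Function.Injective e) (hcoin : μ.map c = coin) :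
    IndepFun (exEucl k hk c e hc he).arr (fun θ (A : {A : NF ℕ | A.1.card ≠ k}) => θ A)
      (iid μ) := by
  obtain ⟨G, hG⟩ : ∃ G : (KS k → Bool) → (oneLang k hk).Str ℕ, ∀ δ (α : Fin k ↪ ℕ),
      G δ (at' k hk α) = (xor (δ ⟨rng k hk α, rng_card k hk α⟩) (decide (refSign k α < 0)) = true) :=
    ⟨fun δ a => (xor (δ ⟨rng k hk a.2, rng_card k hk a.2⟩) (decide (refSign k a.2 < 0)) = true),
      fun δ α => rfl⟩
  have hGm : Measurable G := by
    refine measurable_pi_lambda _ fun a => ?_
    have h1 : (fun δ : KS k → Bool => G δ a) = (fun z : Bool =>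
      (xor z (decide (refSign k a.2 < 0)) = true)) ∘ (fun δ : KS k → Bool =>
        δ ⟨rng k hk a.2, rng_card k hk a.2⟩) := by
      funext δ
      exact hG δ a.2
    rw [h1]
    exact (measurable_of_countable _).comp (measurable_pi_apply _)
  have hae : G ∘ (bit k c e) =ᵐ[iid μ] (exEucl k hk c e hc he).arr := by
    filter_upwards [ae_level_one_injective μ he hinj] with θ hθ
    funext a
    have h1 := arr_eq_of_bit k c e hk hc he θ hθ a.2
    have h2 : G (bit k c e θ) a = (xor (bit k c e θ ⟨rng k hk a.2, rng_card k hk a.2⟩)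
      (decide (refSign k a.2 < 0)) = true) := hG _ a.2
    change G (bit k c e θ) a = _
    rw [h2]
    exact (propext h1).symm
  have h1 := (bit_indep μ k hk2 c e hc he hcoin).comp hGm measurable_id
  exact h1.congr hae (Filter.EventuallyEq.refl _ _)

end independence

section notCompatible

/-- the tuple `0, 1, …, k - 1` -/
def stdTuple (k : ℕ) : Fin k ↪ ℕ := ⟨Fin.val, Fin.val_injective⟩

/-- the transposition of the first two positions -/
def tr (k : ℕ) (hk2 : 2 ≤ k) : Equiv.Perm (Fin k) := Equiv.swap ⟨0, by omega⟩ ⟨1, by omega⟩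

/-- the atom truth values differ after the transposition -/
def Differ (k : ℕ) (hk : 0 < k) (hk2 : 2 ≤ k) : Set ((oneLang k hk).Str ℕ) :=
  {K | ¬ (K (at' k hk (stdTuple k)) ↔ K (at' k hk ((tr k hk2).toEmbedding.trans (stdTuple k))))}

variable {X : Type} [MeasurableSpace X] (μ : Measure X) [IsProbabilityMeasure μ]
  (k : ℕ) (hk2 : 2 ≤ k) (c : X → Bool) (e : X → ℝ)

lemma measurableSet_differ (hk : 0 < k) : MeasurableSet (Differ k hk hk2) := by
  have h1 : Measurable (fun K : (oneLang k hk).Str ℕ => (K (at' k hk (stdTuple k)),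
      K (at' k hk ((tr k hk2).toEmbedding.trans (stdTuple k))))) :=
    (measurable_pi_apply _).prodMk (measurable_pi_apply _)
  have h2 : MeasurableSet {p : Prop × Prop | ¬ (p.1 ↔ p.2)} := (Set.toFinite _).measurableSet
  exact h1 h2

include hk2 in
lemma ae_differ [StandardBorelSpace X] [NullSingletonClass μ] (hk : 0 < k) (hc : Measurable c)
    (he : Measurable e) (hinj : Function.Injective e) :
    ∀ᵐ θ ∂(iid μ), (exEucl k hk c e hc he).arr θ ∈ Differ k hk hk2 := by
  filter_upwards [ae_level_one_injective μ he hinj] with θ hθ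
  change ¬ (_ ↔ _)
  rw [arr_at, arr_at, rng_perm]
  have h1 : vd (fun i => e (θ (sing (((tr k hk2).toEmbedding.trans (stdTuple k)) i))))
      = - vd (fun i => e (θ (sing (stdTuple k i)))) := by
    have h2 := vd_perm (fun i => e (θ (sing (stdTuple k i)))) (tr k hk2)
    have h3 : Equiv.Perm.sign (tr k hk2) = -1 := by
      unfold tr
      exact Equiv.Perm.sign_swap (by intro h; simpa using congrArg Fin.val h)
    rw [h3] at h2
    push_cast at h2
    rw [neg_one_mul] at h2
    exact h2
  have h4 : vd (fun i => e (θ (sing (stdTuple k i)))) ≠ 0 := by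
    refine vd_ne_zero fun i j hij => ?_
    by_contra hne
    exact hθ _ _ (fun h => hne ((stdTuple k).injective h)) hij
  rw [h1]
  generalize vd (fun i => e (θ (sing (stdTuple k i)))) = p at h4 ⊢
  generalize c (θ (rng k hk (stdTuple k))) = b
  rcases lt_or_gt_of_ne h4 with hp | hp
  · have h5 : ¬ 0 < p := not_lt.2 hp.le
    have h6 : 0 < -p := by linarith
    cases b <;> simp [Xor, h5, h6]
  · have h6 : ¬ 0 < -p := by linarith
    cases b <;> simp [Xor, hp, h6]

include hk2 in
lemma not_compatible [StandardBorelSpace X] [NullSingletonClass μ] (hk : 0 < k)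
    (hc : Measurable c) (he : Measurable e) (hinj : Function.Injective e)
    (T : UTheory (oneLang k hk)) {B : Set ℕ} (hB : ∀ m, 0 < m → m < k → m ∈ B) :
    ¬ IsCompatible μ T ((exEucl k hk c e hc he).law μ) {n | n ∉ B} := by
  rintro ⟨N, ⟨_, hlaw⟩, hcomp⟩
  have h1 : N.law μ (Differ k hk hk2) = 0 := by
    unfold Eucl.law
    rw [Measure.map_apply N.measurable_arr (measurableSet_differ k hk2 hk)]
    have : N.arr ⁻¹' (Differ k hk hk2) = ∅ := by
      ext θ
      simp only [mem_empty_iff_false, iff_false]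
      intro hθ
      apply hθ
      change ((fun A => θ (NF.map (stdTuple k) A)) ∈ N.peon ()) ↔
        ((fun A => θ (NF.map ((tr k hk2).toEmbedding.trans (stdTuple k)) A)) ∈ N.peon ())
      refine hcomp () _ _ fun A hA => ?_
      -- only the full set is visible
      have hfull : A = fullSet k hk := by
        apply Subtype.ext
        change A.1 = Finset.univ
        rw [← Finset.card_eq_iff_eq_univ, Fintype.card_fin]
        have h2 : A.1.card ≤ k := by
          have := Finset.card_le_univ A.1
          rwa [Fintype.card_fin] at this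
        by_contra hne
        exact hA (hB _ (Finset.card_pos.2 A.2) (lt_of_le_of_ne h2 hne))
      rw [hfull]
      exact congrArg θ (rng_perm k hk (tr k hk2) (stdTuple k)).symm
    rw [this, measure_empty]
  have h2 : (exEucl k hk c e hc he).law μ (Differ k hk hk2) = 1 := by
    unfold Eucl.law
    rw [Measure.map_apply (Eucl.measurable_arr _) (measurableSet_differ k hk2 hk)]
    have h3 := ae_differ μ k hk2 c e hk hc he hinj
    have h4 : (iid μ) ((exEucl k hk c e hc he).arr ⁻¹' (Differ k hk hk2))ᶜ = 0 := h3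
    exact (prob_compl_eq_zero_iff ((Eucl.measurable_arr _)
      (measurableSet_differ k hk2 hk))).1 h4
  rw [hlaw, h2] at h1
  exact one_ne_zero h1

end notCompatible

/-- For every atomless standard probability space `(X, μ)` and every set `B` of positive integers:
weak `(ℕ₊ ∖ B)`-compatibility is strictly weaker than `(ℕ₊ ∖ B)`-compatibility, that is, some
theory has a limit object that is weakly `(ℕ₊ ∖ B)`-compatible but not `(ℕ₊ ∖ B)`-compatible, if
and only if `1 ∈ B` and `B` is not the set of all positive integers. -/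
theorem result (X : Type) [MeasurableSpace X] [StandardBorelSpace X] (μ : Measure X)
    [IsProbabilityMeasure μ] [NullSingletonClass μ] (B : Set ℕ) (_hB : 0 ∉ B) :
    (∃ (L : Lang) (T : UTheory L) (φ : Measure (L.Str ℕ)), IsLimit μ T φ ∧
        IsWeaklyCompatible μ T φ B ∧ ¬ IsCompatible μ T φ {n | n ∉ B})
      ↔ (1 ∈ B ∧ ∃ n, 0 < n ∧ n ∉ B) := by
  constructor
  · rintro ⟨L, T, φ, _, hw, hc⟩
    refine ⟨?_, ?_⟩
    · by_contra h1
      exact hc (compatible_of_one_notMem μ h1 hw)
    · by_contra h2
      push Not at h2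
      exact hc (compatible_of_all μ _ h2 hw)
  · rintro ⟨h1, n, hn, hnB⟩
    classical
    have hex : ∃ n, 0 < n ∧ n ∉ B := ⟨n, hn, hnB⟩
    obtain ⟨k, hk⟩ : ∃ k, k = Nat.find hex := ⟨_, rfl⟩
    have hk0 : 0 < k ∧ k ∉ B := by rw [hk]; exact Nat.find_spec hex
    have hmin : ∀ m, 0 < m → m < k → m ∈ B := by
      intro m hm hmk
      by_contra hmB
      rw [hk] at hmk
      exact Nat.find_min hex hmk ⟨hm, hmB⟩
    have hk1 : k ≠ 1 := fun h => hk0.2 (h ▸ h1)
    have hk2 : 2 ≤ k := by omega
    obtain ⟨c, hc, hcoin⟩ := exists_law μ coin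
    obtain ⟨e, he, hinj⟩ := exists_embed X
    refine ⟨oneLang k hk0.1, fun _ => univ, (exEucl k hk0.1 c e hc he).law μ, ?_, ?_, ?_⟩
    · exact ⟨exEucl k hk0.1 c e hc he, Filter.Eventually.of_forall fun _ _ _ => trivial, rfl⟩
    · refine ⟨exEucl k hk0.1 c e hc he,
        ⟨Filter.Eventually.of_forall fun _ _ _ => trivial, rfl⟩, ?_⟩
      have h := arr_indep μ k hk2 c e hk0.1 hc he hinj hcoin
      have hm : Measurable (fun (y : {A : NF ℕ | A.1.card ≠ k} → X)
          (A : {A : NF ℕ // A.1.card ∈ B}) =>
          y ⟨A.1, fun h' => hk0.2 (h' ▸ A.2)⟩) := by fun_prop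
      exact h.comp measurable_id hm
    · exact not_compatible μ k hk2 c e hk0.1 hc he hinj _ hmin

end Pool.Agent.Results.MP_1d1228_co.WeakVersusStrong
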